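import Mathlib
import Pool.Agent.Erdos456.Tot
import Pool.Agent.H398R2.BA1
import Pool.Agent.H373R2.T4.DivB
import Pool.Agent.Helper24K9.EL.Mo

set_option autoImplicit false

/-! Lines `h + k g` in the space of the coefficients of quadratic polynomials: basic facts. -/

open Finset Filter Topology

namespace Pool.Agent.Helper24K9.EM

open Pool.Agent.Erdos456 Pool.Agent.Helper24K9.EL

/-- a line `h + k g`, `g = α t² + β t + γ`, `h = a t² + b t + c` -/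
structure Ln where
  α : ℤ
  β : ℤ
  γ : ℤ
  a : ℤ
  b : ℤ
  c : ℤ
  hg : 0 < α ∨ (α = 0 ∧ 0 < β ∧ a ≠ 0)
  hR : (α * c - γ * a) ^ 2 ≠ (α * b - β * a) * (β * c - γ * b)

namespace Ln

variable (l : Ln)

/-- the values of `g` -/
def G (t : ℕ) : ℤ := l.α * (t : ℤ) ^ 2 + l.β * t + l.γ

/-- the values of `h` -/
def H (t : ℕ) : ℤ := l.a * (t : ℤ) ^ 2 + l.b * t + l.c

/-- the values of `g` as natural numbers -/
def g (t : ℕ) : ℕ := (l.G t).toNat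

/-- the sum of the absolute values of the coefficients of `g` and `h` -/
def S : ℕ := l.α.natAbs + l.β.natAbs + l.γ.natAbs + l.a.natAbs + l.b.natAbs + l.c.natAbs + 1

/-- from here on all is positive and increasing -/
def t0 : ℕ := 2 * l.S

lemma abs_le_S : |l.α| + |l.β| + |l.γ| + |l.a| + |l.b| + |l.c| + 1 = (l.S : ℤ) := by
  unfold S
  push_cast
  simp only [Int.natCast_natAbs]

lemma S_pos : (1 : ℤ) ≤ l.S := by
  rw [← abs_le_S]
  have := abs_nonneg l.α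
  have := abs_nonneg l.β
  have := abs_nonneg l.γ
  have := abs_nonneg l.a
  have := abs_nonneg l.b
  have := abs_nonneg l.c
  linarith

lemma S_pos' : 1 ≤ l.S := by exact_mod_cast l.S_pos

/-- `2 G t ≥ t² ` if `α > 0` -/
lemma two_G_ge_sq (h : 0 < l.α) {t : ℕ} (ht : l.t0 ≤ t) : (t : ℤ) ^ 2 ≤ 2 * l.G t := by
  have hS := l.abs_le_S
  have h1 : (2 * l.S : ℤ) ≤ t := by exact_mod_cast ht
  have hb := neg_abs_le l.β
  have hc := neg_abs_le l.γ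
  have := abs_nonneg l.α
  have := abs_nonneg l.β
  have := abs_nonneg l.γ
  have := abs_nonneg l.a
  have := abs_nonneg l.b
  have := abs_nonneg l.c
  have ht0 : (0 : ℤ) ≤ t := by positivity
  have ht1 : (1 : ℤ) ≤ t := by linarith [l.S_pos]
  unfold G
  have h2 : (t : ℤ) ^ 2 ≤ l.α * (t : ℤ) ^ 2 := by nlinarith [sq_nonneg (t : ℤ)]
  have h3 : -(|l.β| * t) ≤ l.β * t := by nlinarith
  have h4 : -(|l.γ| * t) ≤ l.γ := by nlinarith
  have h5 : 2 * (|l.β| + |l.γ|) * t ≤ (t : ℤ) ^ 2 := by nlinarith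
  nlinarith

/-- `2 G t ≥ t` -/
lemma two_G_ge {t : ℕ} (ht : l.t0 ≤ t) : (t : ℤ) ≤ 2 * l.G t := by
  rcases l.hg with h | ⟨h1, h2, h3⟩
  · have h1 := l.two_G_ge_sq h ht
    have h2 : (2 * l.S : ℤ) ≤ t := by exact_mod_cast ht
    have h3 := l.S_pos
    nlinarith
  · have hS := l.abs_le_S
    have h4 : (2 * l.S : ℤ) ≤ t := by exact_mod_cast ht
    have hc := neg_abs_le l.γ
    have := abs_nonneg l.α
    have := abs_nonneg l.β
    have := abs_nonneg l.γ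
    have := abs_nonneg l.a
    have := abs_nonneg l.b
    have := abs_nonneg l.c
    have ht0 : (0 : ℤ) ≤ t := by positivity
    unfold G
    rw [h1]
    nlinarith

lemma G_pos {t : ℕ} (ht : l.t0 ≤ t) : 1 ≤ l.G t := by
  have h1 := l.two_G_ge ht
  have h2 : (2 * l.S : ℤ) ≤ t := by exact_mod_cast ht
  have h3 := l.S_pos
  linarith

lemma g_cast {t : ℕ} (ht : l.t0 ≤ t) : ((l.g t : ℕ) : ℤ) = l.G t :=
  Int.toNat_of_nonneg (by have := l.G_pos ht; linarith)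

lemma g_pos {t : ℕ} (ht : l.t0 ≤ t) : 1 ≤ l.g t := by
  have h1 := l.g_cast ht
  have h2 := l.G_pos ht
  rw [← h1] at h2
  exact_mod_cast h2

lemma G_lt {s t : ℕ} (hs : l.t0 ≤ s) (hst : s < t) : l.G s < l.G t := by
  have hS := l.abs_le_S
  have h1 : (2 * l.S : ℤ) ≤ s := by exact_mod_cast hs
  have hst' : (s : ℤ) < t := by exact_mod_cast hst
  have hb := neg_abs_le l.β
  have := abs_nonneg l.α
  have := abs_nonneg l.β
  have := abs_nonneg l.γ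
  have := abs_nonneg l.a
  have := abs_nonneg l.b
  have := abs_nonneg l.c
  have e : l.G t - l.G s = ((t : ℤ) - s) * (l.α * (t + s) + l.β) := by
    unfold G; ring
  have h2 : 0 < l.α * ((t : ℤ) + s) + l.β := by
    rcases l.hg with h | ⟨h3, h4, h5⟩
    · nlinarith
    · rw [h3]; linarith
  have h3 : 0 < ((t : ℤ) - s) * (l.α * (t + s) + l.β) := mul_pos (by linarith) h2
  linarith

lemma G_le {s t : ℕ} (hs : l.t0 ≤ s) (hst : s ≤ t) : l.G s ≤ l.G t := by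
  rcases hst.lt_or_eq with h | h
  · exact (l.G_lt hs h).le
  · rw [h]

lemma g_le {s t : ℕ} (hs : l.t0 ≤ s) (hst : s ≤ t) : l.g s ≤ l.g t := Int.toNat_le_toNat (l.G_le hs hst)

lemma abs_H_le {t : ℕ} (ht : 1 ≤ t) : |l.H t| ≤ l.S * (t : ℤ) ^ 2 := by
  have hS := l.abs_le_S
  have ht' : (1 : ℤ) ≤ t := by exact_mod_cast ht
  have := abs_nonneg l.α
  have := abs_nonneg l.β
  have := abs_nonneg l.γ
  have := abs_nonneg l.a
  have := abs_nonneg l.b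
  have := abs_nonneg l.c
  unfold H
  have ht2 : (t : ℤ) ≤ (t : ℤ) ^ 2 := by nlinarith
  have ht3 : (1 : ℤ) ≤ (t : ℤ) ^ 2 := by nlinarith
  calc |l.a * (t : ℤ) ^ 2 + l.b * t + l.c| ≤ |l.a * (t : ℤ) ^ 2| + |l.b * t| + |l.c| := by
        exact (abs_add_le _ _).trans (add_le_add (abs_add_le _ _) le_rfl)
    _ = |l.a| * (t : ℤ) ^ 2 + |l.b| * t + |l.c| := by
        rw [abs_mul, abs_mul, abs_of_nonneg (show (0 : ℤ) ≤ (t : ℤ) ^ 2 by positivity),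
          abs_of_nonneg (show (0 : ℤ) ≤ (t : ℤ) by positivity)]
    _ ≤ |l.a| * (t : ℤ) ^ 2 + |l.b| * (t : ℤ) ^ 2 + |l.c| * (t : ℤ) ^ 2 := by nlinarith
    _ ≤ l.S * (t : ℤ) ^ 2 := by rw [← hS]; nlinarith

lemma G_le_sq {t : ℕ} (ht : 1 ≤ t) : l.G t ≤ l.S * (t : ℤ) ^ 2 := by
  have hS := l.abs_le_S
  have ht' : (1 : ℤ) ≤ t := by exact_mod_cast ht
  have := abs_nonneg l.α
  have := abs_nonneg l.β
  have := abs_nonneg l.γ
  have := abs_nonneg l.a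
  have := abs_nonneg l.b
  have := abs_nonneg l.c
  have := le_abs_self l.α
  have := le_abs_self l.β
  have := le_abs_self l.γ
  unfold G
  have ht2 : (t : ℤ) ≤ (t : ℤ) ^ 2 := by nlinarith
  have ht3 : (1 : ℤ) ≤ (t : ℤ) ^ 2 := by nlinarith
  calc l.α * (t : ℤ) ^ 2 + l.β * t + l.γ ≤ |l.α| * (t : ℤ) ^ 2 + |l.β| * (t : ℤ) ^ 2 + |l.γ| * (t : ℤ) ^ 2 := by
        nlinarith
    _ ≤ l.S * (t : ℤ) ^ 2 := by rw [← hS]; nlinarith

/-- `|H t| ≤ 2 S t G t` -/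
lemma abs_H_le_G {t : ℕ} (ht : l.t0 ≤ t) : |l.H t| ≤ 2 * l.S * t * l.G t := by
  have hS1 := l.S_pos
  have h1 : (2 * l.S : ℤ) ≤ t := by exact_mod_cast ht
  have ht1 : 1 ≤ t := by
    have : (1 : ℤ) ≤ t := by linarith
    exact_mod_cast this
  have h2 := l.abs_H_le ht1
  have h3 := l.two_G_ge ht
  have ht0 : (0 : ℤ) ≤ l.S * t := by positivity
  nlinarith

/-- `k G t + H t` is at least `k G t / 2` for `k ≥ 4 S t` -/
lemma val_ge {k t : ℕ} (ht : l.t0 ≤ t) (hk : 4 * l.S * t ≤ k) : (k : ℤ) * l.G t ≤ 2 * ((k : ℤ) * l.G t + l.H t) := by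
  have h1 := l.abs_H_le_G ht
  have h2 := neg_abs_le (l.H t)
  have h3 := l.G_pos ht
  have h4 : (4 * l.S * t : ℤ) ≤ k := by exact_mod_cast hk
  have h5 : (4 * l.S * t : ℤ) * l.G t ≤ k * l.G t := mul_le_mul_of_nonneg_right h4 (by linarith)
  linarith

lemma val_nonneg {k t : ℕ} (ht : l.t0 ≤ t) (hk : 2 * l.S * t ≤ k) : 0 ≤ (k : ℤ) * l.G t + l.H t := by
  have h1 := l.abs_H_le_G ht
  have h2 := neg_abs_le (l.H t)
  have h3 := l.G_pos ht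
  have h4 : (2 * l.S * t : ℤ) ≤ k := by exact_mod_cast hk
  have h5 : (2 * l.S * t : ℤ) * l.G t ≤ k * l.G t := mul_le_mul_of_nonneg_right h4 (by linarith)
  linarith

/-- `G m ≥ (1 - 4 η) G n` if `m ≥ (1 - η) n - 1` and `n` is large -/
lemma ratio (η : ℝ) (hη : 0 < η) (hη1 : η ≤ 1 / 4) : ∃ n₁ : ℕ, ∀ n : ℕ, n₁ ≤ n → ∀ m : ℕ,
    (1 - η) * n - 1 ≤ m → m ≤ n → (1 - 4 * η) * (l.G n : ℝ) ≤ l.G m := by
  refine ⟨⌈(4 * l.S : ℝ) / η⌉₊, fun n hn m hm hmn => ?_⟩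
  have hS1 : (1 : ℝ) ≤ l.S := by exact_mod_cast l.S_pos'
  have hn' : (4 * l.S : ℝ) / η ≤ n := (Nat.le_ceil _).trans (by exact_mod_cast hn)
  rw [div_le_iff₀ hη] at hn'
  have hS : |(l.α:ℝ)| + |(l.β:ℝ)| + |(l.γ:ℝ)| + |(l.a:ℝ)| + |(l.b:ℝ)| + |(l.c:ℝ)| + 1 = (l.S : ℝ) := by
    exact_mod_cast l.abs_le_S
  have p1 := abs_nonneg (l.α:ℝ)
  have p2 := abs_nonneg (l.β:ℝ)
  have p3 := abs_nonneg (l.γ:ℝ)
  have p4 := abs_nonneg (l.a:ℝ)
  have p5 := abs_nonneg (l.b:ℝ)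
  have p6 := abs_nonneg (l.c:ℝ)
  have q1 := neg_abs_le (l.α:ℝ)
  have q2 := neg_abs_le (l.β:ℝ)
  have q3 := neg_abs_le (l.γ:ℝ)
  have q4 := le_abs_self (l.α:ℝ)
  have q5 := le_abs_self (l.β:ℝ)
  have q6 := le_abs_self (l.γ:ℝ)
  have hn1 : (16:ℝ) ≤ n := by nlinarith
  have hm0 : (0:ℝ) ≤ m := Nat.cast_nonneg m
  have hmn' : (m:ℝ) ≤ n := by exact_mod_cast hmn
  unfold G
  push_cast
  rcases l.hg with h | ⟨h2, h3, h4⟩
  · have hα : (1:ℝ) ≤ l.α := by exact_mod_cast h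
    have h1 : ((1 - η) * n - 1) ^ 2 ≤ (m:ℝ) ^ 2 := by
      apply pow_le_pow_left₀ _ hm
      nlinarith
    have h2 : (1 - 2 * η) * (n:ℝ) ^ 2 - 2 * n ≤ (m:ℝ) ^ 2 := by nlinarith [sq_nonneg (η * n), sq_nonneg η]
    have h3 : (l.β:ℝ) * ((m:ℝ) - (1 - 4 * η) * n) ≥ -(|(l.β:ℝ)| * n) := by
      have h4 : |(m:ℝ) - (1 - 4 * η) * n| ≤ n := by
        rw [abs_le]; constructor <;> nlinarith
      have h5 := neg_abs_le ((l.β:ℝ) * ((m:ℝ) - (1 - 4 * η) * n))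
      rw [abs_mul] at h5
      have h6 := mul_le_mul_of_nonneg_left h4 p2
      linarith
    have h4 : (l.γ:ℝ) * (4 * η) ≥ -|(l.γ:ℝ)| := by nlinarith
    have h5 : (l.α:ℝ) * ((m:ℝ) ^ 2 - (1 - 4 * η) * n ^ 2) ≥ l.α * (2 * η * n ^ 2 - 2 * n) := by
      apply mul_le_mul_of_nonneg_left _ (by linarith)
      linarith
    have h6 : (l.α:ℝ) * (2 * η * n ^ 2 - 2 * n) ≥ |(l.β:ℝ)| * n + |(l.γ:ℝ)| := by
      have h7 : 2 * η * (n:ℝ) ^ 2 ≥ 8 * l.S * n := by nlinarith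
      have h8 : (l.α:ℝ) * (2 * η * n ^ 2 - 2 * n) ≥ 1 * (2 * η * n ^ 2 - 2 * n) := by
        apply mul_le_mul_of_nonneg_right hα
        nlinarith
      nlinarith
    nlinarith
  · have hα : (l.α:ℝ) = 0 := by exact_mod_cast h2
    have hβ : (1:ℝ) ≤ l.β := by exact_mod_cast h3
    rw [hα]
    have h5 : (l.β:ℝ) * (3 * η * n - 1) ≤ l.β * ((m:ℝ) - (1 - 4 * η) * n) := by
      apply mul_le_mul_of_nonneg_left _ (by linarith)
      linarith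
    have h6 : (l.γ:ℝ) * (4 * η) ≥ -|(l.γ:ℝ)| := by nlinarith
    have h7 : 3 * η * (n:ℝ) - 1 ≥ |(l.γ:ℝ)| := by nlinarith
    have h8 : 1 * (3 * η * (n:ℝ) - 1) ≤ (l.β:ℝ) * (3 * η * n - 1) := by
      apply mul_le_mul_of_nonneg_right hβ
      linarith
    nlinarith

end Ln

end Pool.Agent.Helper24K9.EM
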