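import Mathlib
import Pool.Agent.Helper24K9.EM.Ft
import Pool.Agent.W218.HF.Count

set_option autoImplicit false

/-! The main theorem along a line of coefficients. -/

open Finset Filter Topology

namespace Pool.Agent.Helper24K9.EM

open Pool.Agent.Erdos456 H343E Pool.Agent.W218.HF Pool.Agent.Helper24K9.EL

namespace Ln

variable (l : Ln)

/-- the elements `t ∈ T` for which `k g(t) + h(t)` has no prime factor `≤ z` -/
noncomputable def unsieved (z k : ℕ) (T : Finset ℕ) : ℕ :=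
  (T.filter (fun t : ℕ => ∀ p ≤ z, p.Prime → ¬ ((p : ℤ) ∣ (k : ℤ) * l.G t + l.H t))).card

/-- the number of `t ∈ T` for which `k g(t) + h(t)` is prime -/
noncomputable def numP (k : ℕ) (T : Finset ℕ) : ℕ :=
  (T.filter (fun t : ℕ => ((k : ℤ) * l.G t + l.H t).toNat.Prime)).card

lemma sieve_avg' (t K z : ℕ) (ht : l.t0 ≤ t) :
    ((((Icc 1 K).filter (fun k : ℕ => ∀ p ≤ z, p.Prime →
      ¬ ((p : ℤ) ∣ (k : ℤ) * l.G t + l.H t))).card : ℕ) : ℝ) / Wz z ≤ (K + Pz z) * GG (l.g t) := by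
  have h := sieve_avg 0 (l.g t) K z (l.H t) (l.g_pos ht)
  have e : ∀ k : ℕ, (((0:ℕ) : ℤ) * ((l.g t : ℕ) : ℤ) ^ 2 + (k : ℤ) * ((l.g t : ℕ) : ℤ) + l.H t) =
      (k : ℤ) * l.G t + l.H t := by
    intro k
    rw [l.g_cast ht]; push_cast; ring
  simp only [e] at h
  exact h

theorem main1 (Rg : ℕ → ℕ → Prop) (hRg : l.Rng Rg) (δ : ℝ) (hδ : 0 < δ) (θ : ℝ) (hθ : θ < 1) :
    ∃ η : ℝ, 0 < η ∧ ∀ z : ℕ, ∃ K₀ : ℕ, ∀ K : ℕ, K₀ ≤ K → ∀ (x : ℕ) (T : Finset ℕ),
    Real.log K ≤ x → Rg K x → T ⊆ Icc l.t0 x →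
    (∀ t ∈ T, IsCoprime (l.G t) (l.H t)) → δ * x ≤ T.card →
    η * K ≤ ((((Icc 1 K).filter (fun k : ℕ =>
      θ * (l.unsieved z k T / Wz z) / Real.log (K * l.g x) ≤ l.numP k T ∧
      η * x / Real.log K ≤ l.numP k T)).card : ℕ) : ℝ) := by
  classical
  obtain ⟨C₂, K₂, hC₂, hsecond⟩ := l.second
  set θ₀ : ℝ := max θ 0 with hθ₀
  have hθ0 : 0 ≤ θ₀ := le_max_right _ _
  have hθ1 : θ₀ < 1 := max_lt hθ one_pos
  have hθθ : θ ≤ θ₀ := le_max_left _ _
  set κ : ℝ := 1 - θ₀ with hκ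
  have hκ0 : 0 < κ := by rw [hκ]; linarith
  have hκ1 : κ ≤ 1 := by rw [hκ]; linarith
  set η₀ : ℝ := κ / 44 with hη₀
  have hη0 : 0 < η₀ := by positivity
  have hη20 : η₀ ≤ 1 / 20 := by rw [hη₀]; linarith
  obtain ⟨K₁, hfirst⟩ := l.first_total Rg hRg η₀ hη0 hη20 δ hδ
  have hSpos : (1:ℝ) ≤ l.S := by exact_mod_cast l.S_pos'
  obtain ⟨K₄, -, hK₄⟩ := hRg.le1 (64 * l.S / κ)
  set η₁ : ℝ := δ * κ / 8 with hη₁
  have hη10 : 0 < η₁ := by positivity
  refine ⟨min η₁ (1 / 64 * κ ^ 2 * δ ^ 2 / C₂), by positivity, ?_⟩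
  set ηf : ℝ := min η₁ (1 / 64 * κ ^ 2 * δ ^ 2 / C₂) with hηf
  intro z
  refine ⟨max (max (max K₁ 4) (max K₂ K₄)) ⌈8 * Pz z / κ⌉₊, ?_⟩
  intro B hB x T hlog hgx hT hTc hTcard
  have hB' : max (max K₁ 4) (max K₂ K₄) ≤ B := (le_max_left _ _).trans hB
  have hB1 : K₁ ≤ B := (le_max_left _ _).trans ((le_max_left _ _).trans hB')
  have hB4 : 4 ≤ B := (le_max_right _ _).trans ((le_max_left _ _).trans hB')
  have hB2 : K₂ ≤ B := (le_max_left _ _).trans ((le_max_right _ _).trans hB')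
  have hBK4 : K₄ ≤ B := (le_max_right _ _).trans ((le_max_right _ _).trans hB')
  have hBP : 8 * (Pz z : ℝ) / κ ≤ B :=
    (Nat.le_ceil _).trans (by exact_mod_cast (le_max_right _ _).trans hB)
  have hBr : (4 : ℝ) ≤ B := by exact_mod_cast hB4
  have hB0 : (0 : ℝ) < B := by linarith
  have hBr1 : (1:ℝ) ≤ B := by linarith
  have hlB : 1 ≤ Real.log B := by
    rw [Real.le_log_iff_exp_le hB0]
    have := Real.exp_one_lt_d9
    linarith
  have hx0 : 0 < (x : ℝ) := by linarith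
  have hx1 : 1 ≤ x := by
    have : 0 < x := by exact_mod_cast hx0
    omega
  have hx1r : (1 : ℝ) ≤ x := by exact_mod_cast hx1
  -- T is nonempty, so `x ≥ t0`
  have ht0x : l.t0 ≤ x := by
    by_contra hcon
    push Not at hcon
    have : T = ∅ := by
      apply Finset.eq_empty_of_forall_notMem
      intro t ht
      have := mem_Icc.1 (hT ht)
      omega
    rw [this, card_empty] at hTcard
    have : 0 < δ * x := by positivity
    push_cast at hTcard
    linarith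
  have hgx1 : 1 ≤ l.g x := l.g_pos ht0x
  have hgx1r : (1:ℝ) ≤ l.g x := by exact_mod_cast hgx1
  have hgx0 : (0:ℝ) < l.g x := by linarith
  obtain ⟨hgxK, hgxM⟩ := hK₄ B hBK4 x hgx
  have hx2g : (x : ℝ) ≤ 2 * l.g x := by
    have h1 := l.two_G_ge ht0x
    rw [← l.g_cast ht0x] at h1
    exact_mod_cast h1
  set L : ℝ := Real.log (B * l.g x) with hL
  have hL1 : Real.log B ≤ L := by
    apply Real.log_le_log hB0
    have := mul_le_mul_of_nonneg_left hgx1r hB0.le
    linarith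
  have hL2 : L ≤ 2 * Real.log B := by
    rw [hL, Real.log_mul hB0.ne' hgx0.ne']
    have := Real.log_le_log hgx0 hgxK
    linarith
  have hL0 : 0 < L := by linarith
  have hF := hfirst B hB1 x T hlog hgx hT hTc hTcard
  set b0 : ℕ := 2 * l.S * x with hb0
  have hgxM' : 64 * l.S * ((l.g x : ℝ) * Real.log B) ≤ κ * B := by
    have h1 : (l.g x : ℝ) * Real.log B * (64 * l.S / κ) = (64 * l.S * ((l.g x : ℝ) * Real.log B)) / κ := by ring
    rw [h1, div_le_iff₀ hκ0] at hgxM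
    linarith
  have hgl : (l.g x : ℝ) ≤ l.g x * Real.log B := le_mul_of_one_le_right hgx0.le hlB
  have hb0B : 2 * b0 ≤ B := by
    have h1 : (2 * b0 : ℝ) ≤ B := by
      rw [hb0]; push_cast
      have h2 : κ * (B:ℝ) ≤ 1 * B := mul_le_mul_of_nonneg_right hκ1 hB0.le
      have h3 : (l.S : ℝ) * (x:ℝ) ≤ l.S * (2 * l.g x) := mul_le_mul_of_nonneg_left hx2g (by linarith)
      have h4 : (l.S : ℝ) * (l.g x : ℝ) ≤ l.S * (l.g x * Real.log B) := mul_le_mul_of_nonneg_left hgl (by linarith)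
      have h5 : (0:ℝ) ≤ l.S * (l.g x * Real.log B) := by positivity
      nlinarith
    exact_mod_cast h1
  set m : ℝ := ∑ t ∈ T, GG (l.g t) with hm
  have hTt0 : ∀ t ∈ T, l.t0 ≤ t := fun t ht => (mem_Icc.1 (hT ht)).1
  -- second moment
  have hS := hsecond B x b0 T hB2 hlog hT hTc le_rfl hb0B
  -- double counting
  set N' : ℕ → ℝ := fun b => ((((T.filter (fun t : ℕ =>
    ((b : ℤ) * l.G t + l.H t).toNat.Prime)).card : ℕ)) : ℝ) with hN'
  have hN'0 : ∀ b, 0 ≤ N' b := fun b => Nat.cast_nonneg _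
  have hswap : ∑ t ∈ T, l.ck B t = ∑ b ∈ Ioc 0 B, N' b := by
    simp only [ck, hN', card_filter]
    push_cast
    rw [sum_comm]
  have hsplit : ∑ b ∈ Ioc 0 B, N' b = ∑ b ∈ Ioc 0 b0, N' b + ∑ b ∈ Ioc b0 B, N' b := by
    rw [← sum_union (by
      rw [Finset.disjoint_left]
      intro b h1 h2
      rw [mem_Ioc] at h1 h2
      omega)]
    congr 1
    ext b
    simp only [mem_union, mem_Ioc]
    omega
  have hsmall : ∑ b ∈ Ioc 0 b0, N' b ≤ b0 * T.card := by
    have h1 : ∀ b ∈ Ioc 0 b0, N' b ≤ T.card := fun b _ => by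
      simp only [hN']
      exact_mod_cast card_filter_le _ _
    refine (sum_le_sum h1).trans ?_
    rw [sum_const, Nat.card_Ioc, nsmul_eq_mul, Nat.sub_zero]
  rw [hswap, hsplit] at hF
  have hN'le : ∀ b, N' b ≤ l.numP b T := fun b => le_rfl
  -- sieve average
  have hR : ∑ b ∈ Icc 1 B, (l.unsieved z b T : ℝ) / Wz z ≤ (B + Pz z) * m := by
    have h1 : ∑ b ∈ Icc 1 B, (l.unsieved z b T : ℝ) / Wz z =
        ∑ t ∈ T, ((((Icc 1 B).filter (fun b : ℕ => ∀ p ≤ z, p.Prime →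
          ¬ ((p : ℤ) ∣ (b : ℤ) * l.G t + l.H t))).card : ℕ) : ℝ) / Wz z := by
      rw [← sum_div, ← sum_div]
      congr 1
      simp only [unsieved, card_filter]
      push_cast
      rw [sum_comm]
    rw [h1, hm, mul_sum]
    apply sum_le_sum
    intro t ht
    exact l.sieve_avg' t B z (hTt0 t ht)
  have hmcard : δ * x ≤ m := by
    refine hTcard.trans ?_
    rw [hm, card_eq_sum_ones]
    push_cast
    apply sum_le_sum
    intro t ht
    exact one_le_GG (l.g_pos (hTt0 t ht))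
  have hm0 : 0 < m := lt_of_lt_of_le (by positivity) hmcard
  have hmcard2 : (T.card : ℝ) ≤ m := by
    rw [hm, card_eq_sum_ones]
    push_cast
    apply sum_le_sum
    intro t ht
    exact one_le_GG (l.g_pos (hTt0 t ht))
  set S := (Icc 1 B).filter (fun b : ℕ =>
      θ * (l.unsieved z b T / Wz z) / L ≤ l.numP b T ∧
      ηf * x / Real.log B ≤ l.numP b T) with hSdef
  have hWz := Wz_pos z
  -- the bad b
  have hbad : ∑ b ∈ (Ioc b0 B).filter (fun b => b ∉ S), N' b ≤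
      θ₀ * ((B + Pz z) * m) / L + B * (2 * η₁ * x / L) := by
    have h1 : ∀ b ∈ (Ioc b0 B).filter (fun b => b ∉ S), N' b ≤
        θ₀ * ((l.unsieved z b T : ℝ) / Wz z) / L + 2 * η₁ * x / L := by
      intro b hb
      rw [mem_filter, mem_Ioc] at hb
      have hb1 : b ∈ Icc 1 B := mem_Icc.2 ⟨by omega, hb.1.2⟩
      have h2 : ¬ (θ * (l.unsieved z b T / Wz z) / L ≤ l.numP b T ∧
          ηf * x / Real.log B ≤ l.numP b T) := by
        intro h
        exact hb.2 (by rw [hSdef, mem_filter]; exact ⟨hb1, h⟩)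
      have hR0 : 0 ≤ (l.unsieved z b T : ℝ) / Wz z := by positivity
      have h3 : 0 ≤ θ₀ * ((l.unsieved z b T : ℝ) / Wz z) / L := by positivity
      have h4 : 0 ≤ 2 * η₁ * x / L := by positivity
      refine (hN'le b).trans ?_
      rw [not_and_or, not_le, not_le] at h2
      rcases h2 with h2 | h2
      · have h5 : θ * ((l.unsieved z b T : ℝ) / Wz z) / L ≤
            θ₀ * ((l.unsieved z b T : ℝ) / Wz z) / L := by gcongr
        linarith
      · have h5 : ηf * x / Real.log B ≤ 2 * η₁ * x / L := by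
          rw [div_le_div_iff₀ (by linarith) hL0]
          have h6 : ηf ≤ η₁ := min_le_left _ _
          calc ηf * x * L ≤ η₁ * x * (2 * Real.log B) := by gcongr
            _ = _ := by ring
        linarith
    refine (sum_le_sum h1).trans ?_
    rw [sum_add_distrib]
    have hsub : (Ioc b0 B).filter (fun b => b ∉ S) ⊆ Icc 1 B := by
      intro b hb
      rw [mem_filter, mem_Ioc] at hb
      exact mem_Icc.2 ⟨by omega, hb.1.2⟩
    apply add_le_add
    · calc _ ≤ ∑ b ∈ Icc 1 B, θ₀ * ((l.unsieved z b T : ℝ) / Wz z) / L := by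
            apply sum_le_sum_of_subset_of_nonneg hsub
            intro b _ _; positivity
        _ = θ₀ * (∑ b ∈ Icc 1 B, (l.unsieved z b T : ℝ) / Wz z) / L := by
            rw [← sum_div, ← mul_sum]
        _ ≤ _ := by gcongr
    · rw [sum_const, nsmul_eq_mul]
      have h2 : (((Ioc b0 B).filter (fun b => b ∉ S)).card : ℝ) ≤ B := by
        have := card_le_card hsub
        rw [Nat.card_Icc, Nat.add_sub_cancel] at this
        exact_mod_cast this
      gcongr
  have hPz : (Pz z : ℝ) ≤ κ / 8 * B := by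
    rw [div_le_iff₀ hκ0] at hBP
    linarith
  set Q : ℝ := B * m / L with hQ
  have hQ0 : 0 < Q := by positivity
  have hbad2 : θ₀ * ((B + Pz z) * m) / L + B * (2 * η₁ * x / L) ≤ (θ₀ + 3 * κ / 8) * Q := by
    have h1 : θ₀ * ((B + Pz z) * m) / L ≤ (θ₀ + κ / 8) * Q := by
      have h2 : θ₀ * ((B + Pz z) * m) ≤ (θ₀ + κ / 8) * (B * m) := by
        have h3 : θ₀ * (B + Pz z) ≤ (θ₀ + κ / 8) * B := by
          have h4 : θ₀ * (Pz z : ℝ) ≤ 1 * (κ / 8 * B) :=
            mul_le_mul hθ1.le hPz (by positivity) (by norm_num)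
          linarith
        have := mul_le_mul_of_nonneg_right h3 hm0.le
        linarith
      rw [hQ, div_le_iff₀ hL0]
      have e : (θ₀ + κ / 8) * (B * m / L) * L = (θ₀ + κ / 8) * (B * m) := by field_simp
      rw [e]; exact h2
    have h2 : B * (2 * η₁ * x / L) ≤ κ / 4 * Q := by
      rw [hQ, hη₁]
      have h3 : B * (2 * (δ * κ / 8) * x / L) = κ / 4 * (B * (δ * x) / L) := by ring
      rw [h3]
      gcongr
    linarith
  have hlow : (b0 : ℝ) * T.card ≤ (κ / 8) * Q := by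
    have h0 : (0:ℝ) ≤ b0 := Nat.cast_nonneg _
    have h1 : (b0 : ℝ) * T.card ≤ b0 * m := mul_le_mul_of_nonneg_left hmcard2 h0
    have h2 : (b0 : ℝ) * L ≤ κ / 8 * B := by
      have h3 : (b0 : ℝ) ≤ 4 * l.S * l.g x := by
        rw [hb0]; push_cast
        have : (l.S : ℝ) * (x:ℝ) ≤ l.S * (2 * l.g x) := mul_le_mul_of_nonneg_left hx2g (by linarith)
        linarith
      calc (b0 : ℝ) * L ≤ (4 * l.S * l.g x) * (2 * Real.log B) := by
            apply mul_le_mul h3 hL2 hL0.le (by positivity)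
        _ = (64 * l.S * ((l.g x : ℝ) * Real.log B)) / 8 := by ring
        _ ≤ _ := by linarith
    refine h1.trans ?_
    rw [hQ]
    have h3 : κ / 8 * (B * m / L) = (κ / 8 * B) * m / L := by ring
    rw [h3, le_div_iff₀ hL0]
    calc (b0 : ℝ) * m * L = (b0 * L) * m := by ring
      _ ≤ _ := mul_le_mul_of_nonneg_right h2 hm0.le
  have hgood : (κ / 4) * Q ≤ ∑ b ∈ (Ioc b0 B).filter (fun b => b ∈ S), N' b := by
    have h1 := sum_filter_add_sum_filter_not (Ioc b0 B) (fun b => b ∈ S) N'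
    have h2 : (1 - 11 * η₀) * (B / L) * m = (1 - κ / 4) * Q := by
      rw [hQ, hη₀]; ring
    rw [h2] at hF
    have h3 : θ₀ = 1 - κ := by rw [hκ]; ring
    have h4 : (1 - κ / 4) * Q - (θ₀ + 3 * κ / 8) * Q = (3 * κ / 8) * Q := by rw [h3]; ring
    linarith
  -- Cauchy-Schwarz
  have hCS : (∑ b ∈ (Ioc b0 B).filter (fun b => b ∈ S), N' b) ^ 2 ≤
      (S.card : ℝ) * (C₂ * (x ^ 2 * (B / Real.log B ^ 2))) := by
    have h1 := sum_mul_sq_le_sq_mul_sq ((Ioc b0 B).filter (fun b => b ∈ S)) (fun _ => (1 : ℝ)) N'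
    simp only [one_mul, one_pow, sum_const, nsmul_eq_mul, mul_one] at h1
    refine h1.trans ?_
    apply mul_le_mul
    · have : ((Ioc b0 B).filter (fun b => b ∈ S)).card ≤ S.card := by
        apply card_le_card
        intro b hb
        exact (mem_filter.1 hb).2
      exact_mod_cast this
    · refine le_trans ?_ hS
      exact sum_le_sum_of_subset_of_nonneg (filter_subset _ _) fun b _ _ => by positivity
    · exact sum_nonneg fun b _ => by positivity
    · positivity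
  have hfin : (κ / 4 * Q) ^ 2 ≤ (S.card : ℝ) * (C₂ * (x ^ 2 * (B / Real.log B ^ 2))) := by
    refine le_trans ?_ hCS
    exact pow_le_pow_left₀ (by positivity) hgood 2
  have hQlow : B * (δ * x) / (2 * Real.log B) ≤ Q := by
    rw [hQ]
    gcongr
  have hfin2 : (κ / 4 * (B * (δ * x) / (2 * Real.log B))) ^ 2 ≤
      (S.card : ℝ) * (C₂ * (x ^ 2 * (B / Real.log B ^ 2))) := by
    refine le_trans ?_ hfin
    have : 0 < Real.log B := by linarith
    gcongr
  have hlB0 : 0 < Real.log B := by linarith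
  have e1 : (κ / 4 * (B * (δ * x) / (2 * Real.log B))) ^ 2 =
      (1 / 64 * κ ^ 2 * δ ^ 2 * B) * (x ^ 2 * (B / Real.log B ^ 2)) := by
    field_simp
    ring
  rw [e1] at hfin2
  have hpos : 0 < (x : ℝ) ^ 2 * (B / Real.log B ^ 2) := by positivity
  have hfin3 : 1 / 64 * κ ^ 2 * δ ^ 2 * B ≤ S.card * C₂ := by
    have h1 : (S.card : ℝ) * (C₂ * (x ^ 2 * (B / Real.log B ^ 2))) =
        (S.card * C₂) * (x ^ 2 * (B / Real.log B ^ 2)) := by ring
    rw [h1] at hfin2
    exact le_of_mul_le_mul_right hfin2 hpos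
  have hfin4 : 1 / 64 * κ ^ 2 * δ ^ 2 / C₂ * B ≤ S.card := by
    have e2 : 1 / 64 * κ ^ 2 * δ ^ 2 / C₂ * B = (1 / 64 * κ ^ 2 * δ ^ 2 * B) / C₂ := by ring
    rw [e2, div_le_iff₀ hC₂]
    exact hfin3
  have hfin5 : ηf * B ≤ 1 / 64 * κ ^ 2 * δ ^ 2 / C₂ * B := by
    gcongr
    exact min_le_right _ _
  exact hfin5.trans hfin4

end Ln

end Pool.Agent.Helper24K9.EM
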