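import Mathlib
import Pool.Agent.Helper24K9.EM.De
import Pool.Agent.Helper24K9.EL.Tc

set_option autoImplicit false

/-! Conjecture F on average along a line of coefficients, with the full constant. -/

open Finset Filter Topology

namespace Pool.Agent.Helper24K9.EM

open Pool.Agent.Erdos456 Pool.Agent.W218.HF Pool.Agent.W468.ConjF Pool.Agent.Helper24K9.EL

namespace Ln

variable (l : Ln)

/-- the number of `t ∈ (t₀, x]` with `k g(t) + h(t)` prime -/
noncomputable def NP (k x : ℕ) : ℕ := #((Ioc l.t0 x).filter (fun t : ℕ => ((k : ℤ) * l.G t + l.H t).toNat.Prime))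

open Classical in
theorem full (hadm : l.Adm) (Rg : ℕ → ℕ → Prop) (hRg : l.Rng Rg) (θ : ℝ) (hθ : θ < 1) : ∃ κ : ℝ, 0 < κ ∧ ∃ K₀ : ℕ,
    ∀ K : ℕ, K₀ ≤ K → ∀ x : ℕ, Real.log K ≤ x → Rg K x →
    κ * K ≤ (#((Icc 1 K).filter (fun k : ℕ =>
      κ * K ≤ k ∧
      Admissible (l.sg * (l.a + l.α * k)) (l.sg * (l.b + l.β * k)) (l.sg * (l.c + l.γ * k)) ∧ ∃ C : ℝ, 0 < C ∧
      Tendsto (fun z => CF (l.sg * (l.a + l.α * k)) (l.sg * (l.b + l.β * k)) (l.sg * (l.c + l.γ * k)) z) atTop (𝓝 C) ∧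
      θ * (2 * C) * l.LS k x ≤ l.NP k x ∧
      κ * x / Real.log K ≤ l.NP k x)) : ℝ) := by
  obtain ⟨δ, hδ, xδ, hdens⟩ := l.dens hadm
  -- the constants
  set θ₀ : ℝ := max θ (1 / 2) with hθ₀
  have hθ0 : 1 / 2 ≤ θ₀ := le_max_right _ _
  have hθ1 : θ₀ < 1 := max_lt hθ (by norm_num)
  have hθθ : θ ≤ θ₀ := le_max_left _ _
  set θ₁ : ℝ := (1 + θ₀) / 2 with hθ₁
  have hθ₁1 : θ₁ < 1 := by rw [hθ₁]; linarith
  have hθ₀₁ : θ₀ < θ₁ := by rw [hθ₁]; linarith
  set r : ℝ := θ₁ / θ₀ with hr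
  have hr1 : 1 < r := by rw [hr, one_lt_div (by linarith)]; exact hθ₀₁
  have hlr : 0 < Real.log r := Real.log_pos hr1
  have hr2 : r ≤ 2 := by
    rw [hr, div_le_iff₀ (by linarith)]; linarith
  set ρ : ℝ := Real.log r / 8 with hρ
  have hρ0 : 0 < ρ := by rw [hρ]; positivity
  have hρ1 : ρ ≤ 1 := by
    have h1 : Real.log r ≤ Real.log 2 := Real.log_le_log (by linarith) hr2
    have := Real.log_two_lt_d9
    rw [hρ]; linarith
  have hexp8 : Real.exp (6 * ρ) * Real.exp ρ * (1 + ρ) ≤ r := by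
    have h1 : 1 + ρ ≤ Real.exp ρ := by have := Real.add_one_le_exp ρ; linarith
    calc Real.exp (6 * ρ) * Real.exp ρ * (1 + ρ) ≤ Real.exp (6 * ρ) * Real.exp ρ * Real.exp ρ := by gcongr
      _ = r := by
          rw [← Real.exp_add, ← Real.exp_add]
          have : 6 * ρ + ρ + ρ = Real.log r := by rw [hρ]; ring
          rw [this, Real.exp_log (by linarith)]
  obtain ⟨η, hη, hmain⟩ := l.main1 Rg hRg δ hδ θ₁ hθ₁1
  -- the discriminant
  set U : ℤ := l.β ^ 2 - 4 * l.α * l.γ with hU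
  set V : ℤ := 2 * l.b * l.β - 4 * (l.a * l.γ + l.α * l.c) with hV
  set W : ℤ := l.b ^ 2 - 4 * l.a * l.c with hW
  have hUVW : V ^ 2 - 4 * U * W ≠ 0 := by
    have : V ^ 2 - 4 * U * W = 16 * l.R := by rw [hU, hV, hW]; unfold R A B C; ring
    rw [this]
    exact mul_ne_zero (by norm_num) l.R_ne
  have hdisc : ∀ k : ℕ, (l.b + l.β * k) ^ 2 - 4 * (l.a + l.α * k) * (l.c + l.γ * k) = QD U V W k := by
    intro k; rw [hU, hV, hW]; unfold QD; ring
  obtain ⟨z₁, hz₁⟩ := good_mostD U V W hUVW ρ (η / 8) hρ0 (by positivity)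
  have hss := l.sg_sq
  have hsα := l.sg_α
  obtain ⟨z₂, hz₂⟩ := DS_most (l.sg * l.a) l.α (by
    rcases l.hg with h | ⟨h1, _, h3⟩
    · exact Or.inl h
    · refine Or.inr ⟨h1, ?_⟩
      unfold sg
      split_ifs with h
      · linarith [h.2]
      · rw [one_mul]
        rcases lt_or_gt_of_ne h3 with h4 | h4
        · exact absurd ⟨h1, h4⟩ h
        · exact h4) ρ (η / 8) hρ0 (by positivity)
  -- the sieving limit
  set z : ℕ := max (max z₁ z₂) (max (max 2 l.R.natAbs) ⌈12 / ρ⌉₊) with hz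
  have hzz₁ : z₁ ≤ z := (le_max_left _ _).trans (le_max_left _ _)
  have hzz₂ : z₂ ≤ z := (le_max_right _ _).trans (le_max_left _ _)
  have hz2 : 2 ≤ z := ((le_max_left _ _).trans (le_max_left _ _)).trans (le_max_right _ _)
  have hzR : l.R.natAbs ≤ z := ((le_max_right _ _).trans (le_max_left _ _)).trans (le_max_right _ _)
  have hzρ : 12 / ρ ≤ z := (Nat.le_ceil _).trans (by exact_mod_cast (le_max_right _ _).trans (le_max_right _ _))
  have hz0 : (0 : ℝ) < z := by exact_mod_cast (by omega : 0 < z)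
  have hzρ' : 12 / (z : ℝ) ≤ ρ := by
    rw [div_le_iff₀ hz0]
    rw [div_le_iff₀ hρ0] at hzρ
    linarith
  obtain ⟨K₁, hK₁⟩ := hmain z
  obtain ⟨H₁, hH₁⟩ := hz₁ z hzz₁
  obtain ⟨H₂, hH₂⟩ := hz₂ z hzz₂
  set κ₁ : ℝ := min (ρ / 8) (η / 8) with hκ₁
  have hκ₁0 : 0 < κ₁ := by rw [hκ₁]; positivity
  obtain ⟨K₂, hK₂⟩ := l.LS_le ρ hρ0 hρ1 κ₁ hκ₁0 (min_le_left _ _)
  obtain ⟨K₄, hK₄3, hK₄⟩ := hRg.le1 (8 * l.S / κ₁)
  set M : ℝ := ((∏ p ∈ PS z, p : ℕ) : ℝ) with hM
  have hM1 : 1 ≤ M := by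
    rw [hM]
    have h1 : 0 < ∏ p ∈ PS z, p := prod_pos fun p hp => by
      have h2 : p.Prime := (mem_filter.1 hp).2
      exact h2.pos
    exact_mod_cast h1
  set M' : ℝ := M * (1 + l.t0) with hM'
  set X₀ : ℝ := max (max 1 xδ) (M' * Real.exp ρ / (Real.exp ρ - 1)) with hX₀
  have hexpρ : 1 < Real.exp ρ := Real.one_lt_exp_iff.2 hρ0
  have hev : ∀ᶠ K : ℕ in atTop, X₀ ≤ Real.log K ∧ 1 ≤ K := by
    have h1 : Tendsto (fun n : ℕ => Real.log n) atTop atTop := Real.tendsto_log_atTop.comp tendsto_natCast_atTop_atTop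
    filter_upwards [h1.eventually_ge_atTop X₀, eventually_ge_atTop 1] with K h1 h3
    exact ⟨h1, h3⟩
  obtain ⟨K₃, hK₃⟩ := eventually_atTop.1 hev
  refine ⟨min (η / 2) κ₁, by positivity, max (max K₁ K₂) (max (max H₁ H₂) (max K₃ K₄)), fun K hK x hx1 hx2 => ?_⟩
  have hKK₁ : K₁ ≤ K := ((le_max_left _ _).trans (le_max_left _ _)).trans hK
  have hKK₂ : K₂ ≤ K := ((le_max_right _ _).trans (le_max_left _ _)).trans hK
  have hKH₁ : H₁ ≤ K := (((le_max_left _ _).trans (le_max_left _ _)).trans (le_max_right _ _)).trans hK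
  have hKH₂ : H₂ ≤ K := (((le_max_right _ _).trans (le_max_left _ _)).trans (le_max_right _ _)).trans hK
  have hKK₃ : K₃ ≤ K := (((le_max_left _ _).trans (le_max_right _ _)).trans (le_max_right _ _)).trans hK
  have hKK₄ : K₄ ≤ K := (((le_max_right _ _).trans (le_max_right _ _)).trans (le_max_right _ _)).trans hK
  obtain ⟨hlX, hK1⟩ := hK₃ K hKK₃
  have hX1 : 1 ≤ X₀ := (le_max_left _ _).trans (le_max_left _ _)
  have hXδ : (xδ : ℝ) ≤ X₀ := (le_max_right _ _).trans (le_max_left _ _)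
  have hXM : M' * Real.exp ρ / (Real.exp ρ - 1) ≤ X₀ := le_max_right _ _
  have hK1r : (1:ℝ) ≤ K := by exact_mod_cast hK1
  have hK0 : (0:ℝ) < K := by linarith
  have hlK1 : 1 ≤ Real.log K := hX1.trans hlX
  have hlK0 : 0 < Real.log K := by linarith
  have hx0 : (0 : ℝ) ≤ x := by positivity
  have hx1' : (1 : ℝ) ≤ x := hlK1.trans hx1
  have hxδ : xδ ≤ x := by
    have : (xδ : ℝ) ≤ x := hXδ.trans (hlX.trans hx1)
    exact_mod_cast this
  obtain ⟨T, hT1, hTc, hTcard, hTmem⟩ := hdens x hxδ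
  have hTI : T ⊆ Icc l.t0 x := fun t ht => by
    have := mem_Ioc.1 (hT1 ht)
    exact mem_Icc.2 ⟨this.1.le, this.2⟩
  have hA := hK₁ K hKK₁ x T hx1 hx2 hTI hTc hTcard
  -- `x ≥ t0`
  have hTne : T.Nonempty := by
    rw [nonempty_iff_ne_empty]
    rintro rfl
    rw [card_empty] at hTcard
    have : 0 < δ * x := by positivity
    push_cast at hTcard
    linarith
  obtain ⟨t₁, ht₁⟩ := hTne
  have ht0x : l.t0 ≤ x := by
    have := mem_Icc.1 (hTI ht₁); omega
  have hgx1 : (1:ℝ) ≤ l.g x := by exact_mod_cast l.g_pos ht0x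
  have hgx0 : (0:ℝ) < l.g x := by linarith
  obtain ⟨hgxK, hgxM⟩ := hK₄ K hKK₄ x hx2
  have hSx : (4 * l.S * x : ℝ) ≤ κ₁ * K := by
    have hx2g : (x : ℝ) ≤ 2 * l.g x := by
      have h1 := l.two_G_ge ht0x
      rw [← l.g_cast ht0x] at h1
      exact_mod_cast h1
    have h1 : (l.g x : ℝ) * Real.log K * (8 * l.S / κ₁) = (8 * l.S * ((l.g x : ℝ) * Real.log K)) / κ₁ := by ring
    rw [h1, div_le_iff₀ hκ₁0] at hgxM
    have hSpos : (1:ℝ) ≤ l.S := by exact_mod_cast l.S_pos'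
    have hgl : (l.g x : ℝ) ≤ l.g x * Real.log K := le_mul_of_one_le_right hgx0.le hlK1
    have h3 : (l.S : ℝ) * (x:ℝ) ≤ l.S * (2 * l.g x) := mul_le_mul_of_nonneg_left hx2g (by linarith)
    have h4 : (l.S : ℝ) * (l.g x : ℝ) ≤ l.S * (l.g x * Real.log K) := mul_le_mul_of_nonneg_left hgl (by linarith)
    linarith
  set L : ℝ := Real.log (K * l.g x) with hL
  have hL1 : Real.log K ≤ L := by
    apply Real.log_le_log hK0
    have := mul_le_mul_of_nonneg_left hgx1 hK0.le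
    linarith
  have hL0 : 0 < L := by linarith
  obtain ⟨E1, hE1c, hE1⟩ := hH₁ K hKH₁
  obtain ⟨E2, hE2c, hE2⟩ := hH₂ K hKH₂
  set A := (Icc 1 K).filter (fun k : ℕ =>
      θ₁ * (l.unsieved z k T / Wz z) / Real.log (K * l.g x) ≤ l.numP k T ∧
      η * x / Real.log K ≤ l.numP k T) with hAdef
  set S₀ := (Icc 1 K).filter (fun k : ℕ => (k : ℝ) < κ₁ * K) with hS₀
  have hS₀c : (#S₀ : ℝ) ≤ η / 4 * K := by
    have h1 : S₀ ⊆ Icc 1 ⌊κ₁ * (K:ℝ)⌋₊ := by
      intro k hk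
      rw [hS₀, mem_filter, mem_Icc] at hk
      exact mem_Icc.2 ⟨hk.1.1, Nat.le_floor hk.2.le⟩
    have h2 := card_le_card h1
    rw [Nat.card_Icc, Nat.add_sub_cancel] at h2
    have h3 : (#S₀ : ℝ) ≤ (⌊κ₁ * (K:ℝ)⌋₊ : ℝ) := by exact_mod_cast h2
    have h4 : (⌊κ₁ * (K:ℝ)⌋₊ : ℝ) ≤ κ₁ * K := Nat.floor_le (by positivity)
    have h5 : κ₁ * (K:ℝ) ≤ η / 8 * K := by
      apply mul_le_mul_of_nonneg_right (min_le_right _ _) hK0.le
    have h6 : 0 ≤ η / 8 * K := by positivity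
    linarith
  have hcount : η / 2 * K ≤ (#(A \ ((E1 ∪ E2) ∪ S₀)) : ℝ) := by
    have h1 : #A ≤ #(A \ ((E1 ∪ E2) ∪ S₀)) + #((E1 ∪ E2) ∪ S₀) := card_le_card_sdiff_add_card
    have h2 : #((E1 ∪ E2) ∪ S₀) ≤ (#E1 + #E2) + #S₀ :=
      (card_union_le _ _).trans (Nat.add_le_add_right (card_union_le _ _) _)
    have h3 : (#A : ℝ) ≤ #(A \ ((E1 ∪ E2) ∪ S₀)) + ((#E1 + #E2) + #S₀) := by
      exact_mod_cast h1.trans (Nat.add_le_add_left h2 _)
    linarith
  have hκK : min (η / 2) κ₁ * (K:ℝ) ≤ η / 2 * K := mul_le_mul_of_nonneg_right (min_le_left _ _) hK0.le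
  refine (hκK.trans hcount).trans ?_
  apply Nat.cast_le.2
  apply card_le_card
  intro k hk
  rw [Finset.mem_sdiff, mem_union, mem_union, not_or, not_or] at hk
  obtain ⟨hkA, ⟨hkE1, hkE2⟩, hkS⟩ := hk
  rw [hAdef, mem_filter] at hkA
  obtain ⟨hkI, hmain1, hmain2⟩ := hkA
  obtain ⟨hsq, hSJ⟩ := hE1 k hkI hkE1
  obtain ⟨hpos, hDS⟩ := hE2 k hkI hkE2
  have hk1 : κ₁ * K ≤ k := by
    by_contra hcon
    apply hkS
    rw [hS₀, mem_filter]
    exact ⟨hkI, not_le.1 hcon⟩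
  have hk4 : 4 * l.S * x ≤ k := by
    have : (4 * l.S * x : ℝ) ≤ k := hSx.trans hk1
    exact_mod_cast this
  -- a prime value
  have hposn : 0 < l.numP k T := by
    have h1 : 0 < η * x / Real.log K := by positivity
    have h2 : (0 : ℝ) < l.numP k T := lt_of_lt_of_le h1 hmain2
    exact_mod_cast h2
  unfold numP at hposn
  obtain ⟨t, ht⟩ := card_pos.1 hposn
  rw [mem_filter] at ht
  have htt0 : l.t0 ≤ t := (mem_Icc.1 (hTI ht.1)).1
  have hsq' : ¬ IsSquare ((l.b + l.β * k) ^ 2 - 4 * (l.a + l.α * k) * (l.c + l.γ * k)) := by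
    rw [hdisc]; exact hsq
  have htx : t ≤ x := (mem_Icc.1 (hTI ht.1)).2
  have esa : l.sg * l.a + l.α * k = l.sg * (l.a + l.α * k) := by
    rw [mul_add, ← mul_assoc, hsα]
  rw [esa] at hpos hDS
  have hadmk := l.adm_of ((Nat.mul_le_mul_left _ htx).trans hk4) htt0 ht.2 hpos hsq'
  have hdisc' : (l.sg * (l.b + l.β * k)) ^ 2 - 4 * (l.sg * (l.a + l.α * k)) * (l.sg * (l.c + l.γ * k)) = QD U V W k := by
    rw [← hdisc]
    have e1 : (l.sg * (l.b + l.β * k)) ^ 2 - 4 * (l.sg * (l.a + l.α * k)) * (l.sg * (l.c + l.γ * k)) =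
        (l.sg * l.sg) * ((l.b + l.β * k) ^ 2 - 4 * (l.a + l.α * k) * (l.c + l.γ * k)) := by ring
    rw [e1, hss, one_mul]
  set a' : ℤ := l.sg * (l.a + l.α * k) with ha'
  set b' : ℤ := l.sg * (l.b + l.β * k) with hb'
  set c' : ℤ := l.sg * (l.c + l.γ * k) with hc'
  have hsq'' : ¬ IsSquare (b' ^ 2 - 4 * a' * c') := by rw [hdisc']; exact hsq
  rw [mem_filter]
  refine ⟨hkI, (mul_le_mul_of_nonneg_right (min_le_right _ _) hK0.le).trans hk1, hadmk, ?_⟩
  obtain ⟨C, hC0, hC⟩ := CF_tendsto a' b' c' hpos hsq''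
  have hCFz := CF_pos a' b' c' z
  have hCle : C ≤ CF a' b' c' z * Real.exp (6 * ρ) := by
    have h1 : ∀ᶠ N in atTop, Real.log (CF a' b' c' N) ≤ Real.log (CF a' b' c' z) + 6 * ρ := by
      filter_upwards [hSJ, eventually_ge_atTop z] with N h2 h3
      have h4 := CF_cmp a' b' c' z N hz2 h3
      rw [hdisc'] at h4
      have h5 := hDS N
      have h6 := le_abs_self (Real.log (CF a' b' c' N) - Real.log (CF a' b' c' z))
      linarith
    have h2 : Tendsto (fun N => Real.log (CF a' b' c' N)) atTop (𝓝 (Real.log C)) := hC.log hC0.ne'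
    have h3 : Real.log C ≤ Real.log (CF a' b' c' z) + 6 * ρ := le_of_tendsto h2 h1
    have h4 := Real.exp_le_exp.2 h3
    rw [Real.exp_log hC0, Real.exp_add, Real.exp_log hCFz] at h4
    exact h4
  -- comparison of counts
  have hpi : (l.numP k T : ℝ) ≤ l.NP k x := by
    have : l.numP k T ≤ l.NP k x := by
      unfold numP NP
      exact card_le_card (filter_subset_filter _ hT1)
    exact_mod_cast this
  have hWz := Wz_pos z
  have hpoly : ∀ t : ℕ, a' * (t : ℤ) ^ 2 + b' * t + c' = l.sg * ((k : ℤ) * l.G t + l.H t) := by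
    intro t; rw [ha', hb', hc']; unfold G H; ring
  have hpd : ∀ (p : ℤ) (t : ℕ), p ∣ a' * (t : ℤ) ^ 2 + b' * t + c' ↔ p ∣ (k : ℤ) * l.G t + l.H t := by
    intro p t
    rw [hpoly]
    constructor
    · intro h
      have h1 := Dvd.dvd.mul_left h l.sg
      rwa [← mul_assoc, hss, one_mul] at h1
    · intro h
      exact Dvd.dvd.mul_left h _
  have hun : ((x : ℝ) - M') * (2 * CF a' b' c' z) ≤ l.unsieved z k T / Wz z := by
    rw [le_div_iff₀ hWz]
    have h1 := rough_low a' b' c' z x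
    rw [rough_euler a' b' c' hadmk z hz2] at h1
    have h2 : (#((Icc 1 x).filter (fun t : ℕ => ∀ p ∈ PS z, ¬ (p : ℤ) ∣ a' * (t : ℤ) ^ 2 + b' * t + c')) : ℝ) ≤
        l.t0 + l.unsieved z k T := by
      have h3 : (Icc 1 x).filter (fun t : ℕ => ∀ p ∈ PS z, ¬ (p : ℤ) ∣ a' * (t : ℤ) ^ 2 + b' * t + c') ⊆
          Icc 1 l.t0 ∪ (T.filter (fun t : ℕ => ∀ p ≤ z, p.Prime → ¬ ((p : ℤ) ∣ (k : ℤ) * l.G t + l.H t))) := by
        intro s hs
        rw [mem_filter, mem_Icc] at hs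
        rw [mem_union, mem_Icc, mem_filter]
        by_cases hst : s ≤ l.t0
        · exact Or.inl ⟨hs.1.1, hst⟩
        right
        have hall : ∀ p ≤ z, p.Prime → ¬ ((p : ℤ) ∣ (k : ℤ) * l.G s + l.H s) := by
          intro p hpz hpp
          rw [← hpd]
          exact hs.2 p (by unfold PS; rw [mem_filter, mem_range]; exact ⟨by omega, hpp⟩)
        refine ⟨?_, hall⟩
        apply hTmem s (mem_Ioc.2 ⟨by omega, hs.1.2⟩)
        apply l.coprime_of
        rintro p hpp hpR ⟨h4, h5⟩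
        have hpz : p ≤ z := (Nat.le_of_dvd (Int.natAbs_pos.2 l.R_ne) (Int.natCast_dvd.1 hpR)).trans hzR
        exact hall p hpz hpp (dvd_add (h4.mul_left _) h5)
      have h4 := (card_le_card h3).trans (card_union_le _ _)
      rw [Nat.card_Icc, Nat.add_sub_cancel] at h4
      unfold unsieved
      exact_mod_cast h4
    -- the product is at least `1 / M`
    set qq : ℝ := (∏ p ∈ (Icc 1 z).filter Nat.Prime, (1 - 1 / (p : ℝ))) * (2 * CF a' b' c' z) with hqq
    have hqM : 1 ≤ M * qq := by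
      rw [hqq, ← rough_euler a' b' c' hadmk z hz2, hM]
      push_cast
      rw [← prod_mul_distrib]
      have hqpos : 0 < ∏ p ∈ PS z, (1 - (nr a' b' c' p : ℝ) / p) := by
        rw [rough_euler a' b' c' hadmk z hz2]
        have : 0 < Wz z := Wz_pos z
        unfold Wz at this
        positivity
      have h5 : ∀ p ∈ PS z, (1:ℝ) ≤ p * (1 - (nr a' b' c' p : ℝ) / p) := by
        intro p hp
        have hpp : p.Prime := (mem_filter.1 hp).2
        have hp0 : (0:ℝ) < p := by exact_mod_cast hpp.pos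
        have h6 : (p:ℝ) * (1 - (nr a' b' c' p : ℝ) / p) = p - nr a' b' c' p := by field_simp
        rw [h6]
        have h7 : nr a' b' c' p ≤ p := by
          unfold nr
          calc _ ≤ #(range p) := card_filter_le _ _
            _ = p := card_range p
        have h8 : nr a' b' c' p ≠ p := by
          intro h9
          have : (1 - (nr a' b' c' p : ℝ) / p) = 0 := by
            rw [h9, div_self hp0.ne', sub_self]
          exact hqpos.ne' (prod_eq_zero hp this)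
        have h9 : nr a' b' c' p + 1 ≤ p := by omega
        have h10 : (nr a' b' c' p : ℝ) + 1 ≤ p := by exact_mod_cast h9
        linarith
      calc (1:ℝ) = ∏ p ∈ PS z, (1:ℝ) := by rw [prod_const_one]
        _ ≤ _ := prod_le_prod (fun _ _ => zero_le_one) h5
    have hWq : Wz z * (2 * CF a' b' c' z) = qq := rfl
    have h6 : ((x:ℝ) - M) * qq ≤ l.t0 + l.unsieved z k T := by
      refine le_trans (le_of_eq ?_) (h1.trans h2)
      rw [hM]
    have ht0r : (0:ℝ) ≤ l.t0 := Nat.cast_nonneg _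
    have h7 : (l.t0 : ℝ) ≤ M * l.t0 * qq := by
      have := mul_le_mul_of_nonneg_left hqM ht0r
      linarith
    calc ((x : ℝ) - M') * (2 * CF a' b' c' z) * Wz z = ((x:ℝ) - M) * qq - M * l.t0 * qq := by
          rw [hM', ← hWq]; ring
      _ ≤ l.unsieved z k T := by linarith
  have hxM : (x : ℝ) ≤ (x - M') * Real.exp ρ := by
    have h1 : M' * Real.exp ρ / (Real.exp ρ - 1) ≤ x := (hXM.trans hlX).trans hx1
    rw [div_le_iff₀ (by linarith)] at h1
    linarith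
  have hLS := hK₂ K hKK₂ x k ht0x hgxK hk4 hk1
  have hLS0 : 0 ≤ l.LS k x := by
    unfold LS
    apply sum_nonneg
    intro t ht
    rw [mem_filter] at ht
    apply one_div_nonneg.2
    apply Real.log_nonneg
    have : (2:ℝ) ≤ (((k : ℤ) * l.G t + l.H t : ℤ) : ℝ) := by exact_mod_cast ht.2
    linarith
  refine ⟨C, hC0, hC, ?_, ?_⟩
  · refine le_trans ?_ (hmain1.trans hpi)
    have hθ₀0 : 0 < θ₀ := by linarith
    have hCz : 0 < CF a' b' c' z := hCFz
    calc θ * (2 * C) * l.LS k x ≤ θ₀ * (2 * C) * l.LS k x := by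
          apply mul_le_mul_of_nonneg_right _ hLS0
          exact mul_le_mul_of_nonneg_right hθθ (by positivity)
      _ ≤ θ₀ * (2 * (CF a' b' c' z * Real.exp (6 * ρ))) * ((1 + ρ) * x / L) := by
          apply mul_le_mul _ hLS hLS0 (by positivity)
          exact mul_le_mul_of_nonneg_left (by linarith) hθ₀0.le
      _ ≤ θ₀ * (2 * (CF a' b' c' z * Real.exp (6 * ρ))) * ((1 + ρ) * ((x - M') * Real.exp ρ) / L) := by
          gcongr
      _ = θ₀ * (Real.exp (6 * ρ) * Real.exp ρ * (1 + ρ)) * (((x - M') * (2 * CF a' b' c' z))) / L := by ring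
      _ ≤ θ₀ * r * (((x - M') * (2 * CF a' b' c' z))) / L := by
          apply div_le_div_of_nonneg_right _ hL0.le
          have hxM0 : 0 ≤ (x : ℝ) - M' := by
            by_contra hcon
            push Not at hcon
            have := mul_neg_of_neg_of_pos hcon (Real.exp_pos ρ)
            linarith
          gcongr
      _ = θ₁ * (((x - M') * (2 * CF a' b' c' z))) / L := by
          rw [hr]
          have : θ₀ * (θ₁ / θ₀) = θ₁ := by field_simp
          rw [this]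
      _ ≤ θ₁ * (l.unsieved z k T / Wz z) / L := by
          apply div_le_div_of_nonneg_right _ hL0.le
          exact mul_le_mul_of_nonneg_left hun (by linarith)
  · refine le_trans ?_ (hmain2.trans hpi)
    apply div_le_div_of_nonneg_right _ hlK0.le
    apply mul_le_mul_of_nonneg_right _ hx0
    have := min_le_left (η / 2) κ₁
    linarith

end Ln

end Pool.Agent.Helper24K9.EM
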